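import Pool.Agent.Helper69.FF.St

set_option autoImplicit false

open scoped BigOperators

namespace Pool.Agent.Helper85.FF

open _root_.FF DV

private lemma abs_sg (b : Bool) : |sg b| ≤ 1 := by
  unfold sg
  split_ifs <;> simp

theorem hG1a (hGR : StGR) (hMX : StMX) : StG1a := by
  classical
  intro X _ _ m s r M J p x e θ he hθ hθ3 hp1 hex hcard hJ hs
  have hs0 : 0 < s := lt_of_le_of_lt (Nat.zero_le _) hs
  obtain ⟨j0, -⟩ := hex ⟨0, hs0⟩
  have : Nonempty (Fin m × (Fin s → Bool)) := ⟨(j0, fun _ => true)⟩
  let g : Finset (Fin s) → Fin m × (Fin s → Bool) → ℝ := fun S q =>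
    p q.1 (∑ i ∈ S.filter (fun i => θ ≤ p q.1 (x i)), sg (q.2 i) • x i)
  let V : Finset (Fin s) → ℝ := fun S => ⨆ q, g S q
  have hle : ∀ S q, g S q ≤ V S := fun S q => le_ciSup (Set.finite_range (g S)).bddAbove q
  have hmax : ∀ S, ∃ q, g S q = V S := fun S => exists_eq_ciSup_of_finite
  have hA : ∀ (S : Finset (Fin s)) (j : Fin m) (c : Fin s → ℝ), (∀ i, |c i| ≤ 1) →
      p j (∑ i ∈ S.filter (fun i => θ ≤ p j (x i)), c i • x i) ≤ V S := by
    intro S j c hc
    obtain ⟨σ, hσ⟩ := hMX X (p j) s x (S.filter (fun i => θ ≤ p j (x i))) c 0 hc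
    rw [zero_add, zero_add] at hσ
    exact hσ.trans (hle S (j, σ))
  have hmono : ∀ S S' : Finset (Fin s), S ⊆ S' → V S ≤ V S' := by
    intro S S' hSS
    refine ciSup_le fun q => ?_
    have h := hA S' q.1 (fun i => if i ∈ S then sg (q.2 i) else 0) (by
      intro i
      by_cases hi : i ∈ S
      · simp only [hi, if_true]; exact abs_sg _
      · simp [hi])
    have he : ∑ i ∈ S'.filter (fun i => θ ≤ p q.1 (x i)), (if i ∈ S then sg (q.2 i) else 0) • x i =
        ∑ i ∈ S.filter (fun i => θ ≤ p q.1 (x i)), sg (q.2 i) • x i := by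
      rw [Finset.sum_filter, Finset.sum_filter, ← Finset.sum_subset hSS]
      · refine Finset.sum_congr rfl fun i hi => ?_
        simp [hi]
      · intro i _ hi
        simp [hi]
    rw [he] at h
    exact h
  have hne : ∀ S : Finset (Fin s), S.Nonempty → 1 / 3 ≤ V S := by
    rintro S ⟨i, hi⟩
    obtain ⟨j, hj⟩ := hex i
    have h1 := hmono {i} S (by simpa using hi)
    have h2 := hle {i} (j, fun _ => true)
    have h3 : g {i} (j, fun _ => true) = p j (x i) := by
      simp only [g]
      rw [Finset.filter_singleton, if_pos (hθ3.trans hj), Finset.sum_singleton]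
      simp [sg]
    rw [h3] at h2
    linarith
  have hbd : ∀ (S : Finset (Fin s)) q, g S q ≤ ((S.filter (fun i => θ ≤ p q.1 (x i))).card : ℝ) := by
    intro S q
    calc g S q ≤ ∑ i ∈ S.filter (fun i => θ ≤ p q.1 (x i)), p q.1 (sg (q.2 i) • x i) := by
          exact Finset.le_sum_of_subadditive (p q.1) (map_zero (p q.1)).le (map_add_le_add (p q.1)) _ _
      _ ≤ ∑ i ∈ S.filter (fun i => θ ≤ p q.1 (x i)), (1 : ℝ) := by
          refine Finset.sum_le_sum fun i _ => ?_
          rw [map_smul_eq_mul, Real.norm_eq_abs]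
          calc |sg (q.2 i)| * p q.1 (x i) ≤ 1 * 1 :=
                mul_le_mul (abs_sg _) (hp1 _ _) (apply_nonneg _ _) zero_le_one
            _ = 1 := one_mul 1
      _ = _ := by simp
  have hVu : V Finset.univ ≤ r := by
    refine ciSup_le fun q => (hbd _ q).trans ?_
    exact_mod_cast hcard q.1
  have hB : ∀ S : Finset (Fin s), ∃ B ⊆ S, B.card ≤ r ∧ V S ≤ V B := by
    intro S
    obtain ⟨q, hq⟩ := hmax S
    refine ⟨S.filter (fun i => θ ≤ p q.1 (x i)), Finset.filter_subset _ _, ?_, ?_⟩
    · refine le_trans (Finset.card_le_card ?_) (hcard q.1)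
      exact Finset.filter_subset_filter _ (Finset.subset_univ _)
    · rw [← hq]
      have h := hle (S.filter (fun i => θ ≤ p q.1 (x i))) q
      have he : g (S.filter (fun i => θ ≤ p q.1 (x i))) q = g S q := by
        simp only [g, Finset.filter_filter, and_self]
      rw [he] at h
      exact h
  obtain ⟨S, B', hS1, hB', hdisj⟩ := hGR s r M J V (1 / 3) r e (by norm_num) he.le hmono hne hVu hB
    (by linarith) hs
  choose q hq using fun l => hmax (B' l)
  refine ⟨fun l => (B' l).filter (fun i => θ ≤ p (q l).1 (x i)), fun l => (q l).1,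
    fun l i => sg ((q l).2 i), V S, hS1, fun l i => abs_sg _, ?_, ?_, ?_⟩
  · intro l l' hll
    exact Finset.disjoint_of_subset_left (Finset.filter_subset _ _)
      (Finset.disjoint_of_subset_right (Finset.filter_subset _ _) (hdisj l l' hll))
  · intro j c hc
    have hin : ∀ l i, i ∈ (B' l).filter (fun i => θ ≤ p (q l).1 (x i)) → i ∈ B' l :=
      fun l i hi => (Finset.mem_filter.1 hi).1
    have h := hA S j (fun i => ∑ l, if i ∈ (B' l).filter (fun i => θ ≤ p (q l).1 (x i)) then c l i else 0)
      (by
        intro i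
        by_cases hi : ∃ l, i ∈ (B' l).filter (fun i => θ ≤ p (q l).1 (x i))
        · obtain ⟨l0, hl0⟩ := hi
          have : (∑ l, if i ∈ (B' l).filter (fun i => θ ≤ p (q l).1 (x i)) then c l i else 0) = c l0 i := by
            rw [Finset.sum_eq_single l0]
            · rw [if_pos hl0]
            · intro l _ hl
              rw [if_neg]
              intro hi
              exact Finset.disjoint_left.1 (hdisj l l0 hl) (hin l i hi) (hin l0 i hl0)
            · intro h; exact absurd (Finset.mem_univ _) h
          show |(∑ l, if i ∈ (B' l).filter (fun i => θ ≤ p (q l).1 (x i)) then c l i else 0)| ≤ 1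
          rw [this]
          exact hc l0 i
        · push Not at hi
          have : (∑ l, if i ∈ (B' l).filter (fun i => θ ≤ p (q l).1 (x i)) then c l i else 0) = 0 :=
            Finset.sum_eq_zero fun l _ => if_neg (hi l)
          show |(∑ l, if i ∈ (B' l).filter (fun i => θ ≤ p (q l).1 (x i)) then c l i else 0)| ≤ 1
          rw [this, abs_zero]
          exact zero_le_one)
    have he2 : ∑ i ∈ S.filter (fun i => θ ≤ p j (x i)),
        (∑ l, if i ∈ (B' l).filter (fun i => θ ≤ p (q l).1 (x i)) then c l i else 0) • x i =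
        ∑ l, ∑ i ∈ ((B' l).filter (fun i => θ ≤ p (q l).1 (x i))).filter (fun i => θ ≤ p j (x i)),
          c l i • x i := by
      simp_rw [Finset.sum_smul]
      rw [Finset.sum_comm]
      refine Finset.sum_congr rfl fun l _ => ?_
      have hsub : ((B' l).filter (fun i => θ ≤ p (q l).1 (x i))).filter (fun i => θ ≤ p j (x i)) ⊆
          S.filter (fun i => θ ≤ p j (x i)) :=
        Finset.filter_subset_filter _ ((Finset.filter_subset _ _).trans (hB' l).1)
      rw [← Finset.sum_subset hsub]
      · refine Finset.sum_congr rfl fun i hi => ?_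
        rw [if_pos (Finset.mem_filter.1 hi).1]
      · intro i hi hi2
        rw [if_neg, zero_smul]
        intro hi3
        exact hi2 (Finset.mem_filter.2 ⟨hi3, (Finset.mem_filter.1 hi).2⟩)
    rw [he2] at h
    exact h
  · intro l
    have h := (hB' l).2.2
    rw [← hq l] at h
    exact h

end Pool.Agent.Helper85.FF
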